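import Pool.Agent.T2H58.ST.LOGW
import Pool.Agent.T2H58.ST.HAR
import Pool.Agent.T2H98.RT.DIV

/-!
Sup norms of exponential sums with coefficients `a(n) n^{it}` for typical `t`: the mean value.
-/

set_option autoImplicit false

open MeasureTheory Filter Topology Finset

namespace Pool.Agent.T2H17.MT

/-- `∑_{n ≤ R} a(n) n^{it} e(nx)` -/
noncomputable def S (a : ℕ → ℂ) (R : ℕ) (x t : ℝ) : ℂ :=
  ∑ n ∈ Finset.Icc 1 R, a n * (n : ℂ) ^ ((t : ℂ) * Complex.I) *
    Complex.exp (2 * Real.pi * Complex.I * n * x)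

/-- the `k`-tuples of positive integers at most `R` -/
def V (k R : ℕ) : Finset (Fin k → ℕ) := Fintype.piFinset fun _ : Fin k => Finset.Icc 1 R

/-- one summand of the part of `S ^ k` with sum `j`, `∏ a(v_i) (∏ v_i)^{it}` -/
noncomputable def term (a : ℕ → ℂ) {k : ℕ} (v : Fin k → ℕ) (t : ℝ) : ℂ :=
  (∏ i, a (v i)) * Complex.exp (t * (Real.log ((∏ i, v i : ℕ) : ℝ) * Complex.I))

/-- the `j`-th coefficient of `S ^ k` -/
noncomputable def Aj (a : ℕ → ℂ) (k R j : ℕ) (t : ℝ) : ℂ :=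
  ∑ v ∈ (V k R).filter (fun v => ∑ i, v i = j), term a v t

/-- the majorant of `‖S‖ ^ (2k)` -/
noncomputable def Y (a : ℕ → ℂ) (k R : ℕ) (t : ℝ) : ℝ :=
  ((k * R + 1 : ℕ) : ℝ) * ∑ j ∈ Finset.range (k * R + 1), ‖Aj a k R j t‖ ^ 2

lemma mem_V {k R : ℕ} {v : Fin k → ℕ} : v ∈ V k R ↔ ∀ i, 1 ≤ v i ∧ v i ≤ R := by
  unfold V
  rw [Fintype.mem_piFinset]
  simp only [Finset.mem_Icc]

lemma pow_expand (a : ℕ → ℂ) (k R : ℕ) (x t : ℝ) :
    S a R x t ^ k = ∑ v ∈ V k R, term a v t * Complex.exp (2 * Real.pi * Complex.I * x * ((∑ i, v i : ℕ) : ℂ)) := by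
  classical
  have h1 : S a R x t ^ k = ∏ _i : Fin k, ∑ n ∈ Finset.Icc 1 R, a n * (n : ℂ) ^ ((t : ℂ) * Complex.I) *
      Complex.exp (2 * Real.pi * Complex.I * n * x) := by
    rw [Finset.prod_const, Finset.card_univ, Fintype.card_fin]
    rfl
  rw [h1, Finset.prod_univ_sum]
  refine Finset.sum_congr rfl fun v hv => ?_
  have hv' : ∀ i, v i ≠ 0 := fun i => by
    have := (mem_V.mp hv i).1
    omega
  rw [Finset.prod_mul_distrib, Finset.prod_mul_distrib]
  unfold term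
  congr 1
  · congr 1
    have e1 : ∀ i ∈ (Finset.univ : Finset (Fin k)), ((v i : ℂ)) ^ ((t : ℂ) * Complex.I) =
        Complex.exp (t * (Real.log (v i) * Complex.I)) := by
      intro i _
      rw [Complex.cpow_def_of_ne_zero (by exact_mod_cast hv' i), ← Complex.natCast_log]
      congr 1
      ring
    rw [Finset.prod_congr rfl e1, ← Complex.exp_sum]
    congr 1
    rw [← Finset.mul_sum, ← Finset.sum_mul]
    congr 2
    push_cast
    rw [Real.log_prod (s := Finset.univ) (f := fun i => (v i : ℝ)) (fun i _ => by exact_mod_cast hv' i)]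
    push_cast
    rfl
  · rw [← Complex.exp_sum]
    congr 1
    push_cast
    rw [Finset.mul_sum]
    exact Finset.sum_congr rfl fun i _ => by ring

lemma sum_le {k R : ℕ} {v : Fin k → ℕ} (hv : v ∈ V k R) : ∑ i, v i ∈ Finset.range (k * R + 1) := by
  rw [Finset.mem_range]
  have : ∑ i, v i ≤ ∑ _i : Fin k, R := Finset.sum_le_sum fun i _ => (mem_V.mp hv i).2
  simp at this
  omega

lemma norm_pow_le (a : ℕ → ℂ) (k R : ℕ) (x t : ℝ) : ‖S a R x t‖ ^ (2 * k) ≤ Y a k R t := by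
  have h1 : S a R x t ^ k = ∑ j ∈ Finset.range (k * R + 1),
      Aj a k R j t * Complex.exp (2 * Real.pi * Complex.I * x * (j : ℂ)) := by
    rw [pow_expand, ← Finset.sum_fiberwise_of_maps_to (fun v hv => sum_le hv)]
    refine Finset.sum_congr rfl fun j _ => ?_
    unfold Aj
    rw [Finset.sum_mul]
    exact Finset.sum_congr rfl fun v hv => by rw [(Finset.mem_filter.mp hv).2]
  have h2 : ‖S a R x t‖ ^ k ≤ ∑ j ∈ Finset.range (k * R + 1), ‖Aj a k R j t‖ := by
    rw [← norm_pow, h1]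
    refine (norm_sum_le _ _).trans (le_of_eq (Finset.sum_congr rfl fun j _ => ?_))
    rw [norm_mul]
    have : ‖Complex.exp (2 * Real.pi * Complex.I * x * (j : ℂ))‖ = 1 := by
      have e : 2 * (Real.pi : ℂ) * Complex.I * x * (j : ℂ) = ((2 * Real.pi * x * j : ℝ) : ℂ) * Complex.I := by
        push_cast
        ring
      rw [e, Complex.norm_exp_ofReal_mul_I]
    rw [this, mul_one]
  have h3 : ‖S a R x t‖ ^ (2 * k) = (‖S a R x t‖ ^ k) ^ 2 := by
    rw [← pow_mul, mul_comm]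
  rw [h3]
  calc (‖S a R x t‖ ^ k) ^ 2 ≤ (∑ j ∈ Finset.range (k * R + 1), ‖Aj a k R j t‖) ^ 2 :=
        pow_le_pow_left₀ (by positivity) h2 2
    _ ≤ ((Finset.range (k * R + 1)).card : ℝ) * ∑ j ∈ Finset.range (k * R + 1), ‖Aj a k R j t‖ ^ 2 :=
        sq_sum_le_card_mul_sum_sq
    _ = Y a k R t := by rw [Finset.card_range]; rfl

/-- the kernel -/
noncomputable def K (T₀ T l : ℝ) : ℝ := ‖∫ t in T₀..(T₀ + T), Complex.exp (t * (l * Complex.I))‖

lemma K_le {T₀ T l : ℝ} (hT : 0 ≤ T) : K T₀ T l ≤ T := by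
  unfold K
  have := intervalIntegral.norm_integral_le_of_norm_le_const (a := T₀) (b := T₀ + T)
    (f := fun t : ℝ => Complex.exp (t * (l * Complex.I))) (C := 1) (fun t _ => by
      have e : (t : ℂ) * (l * Complex.I) = ((t * l : ℝ) : ℂ) * Complex.I := by push_cast; ring
      rw [e, Complex.norm_exp_ofReal_mul_I])
  rw [add_sub_cancel_left, abs_of_nonneg hT, one_mul] at this
  exact this

lemma K_le' {T₀ T l : ℝ} (hl : l ≠ 0) : K T₀ T l ≤ 2 * (1 / |l|) := by
  unfold K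
  have hc : (l : ℂ) * Complex.I ≠ 0 := mul_ne_zero (by exact_mod_cast hl) Complex.I_ne_zero
  have e : (∫ t in T₀..(T₀ + T), Complex.exp (t * (l * Complex.I))) =
      (Complex.exp ((l * Complex.I) * ((T₀ + T : ℝ) : ℂ)) - Complex.exp ((l * Complex.I) * (T₀ : ℂ))) /
        (l * Complex.I) := by
    rw [← integral_exp_mul_complex hc]
    refine intervalIntegral.integral_congr fun t _ => ?_
    congr 1
    ring
  rw [e, norm_div]
  have n1 : ‖(l : ℂ) * Complex.I‖ = |l| := by simp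
  have n2 : ∀ s : ℝ, ‖Complex.exp ((l * Complex.I) * (s : ℂ))‖ = 1 := by
    intro s
    have e : (l : ℂ) * Complex.I * (s : ℂ) = ((l * s : ℝ) : ℂ) * Complex.I := by push_cast; ring
    rw [e, Complex.norm_exp_ofReal_mul_I]
  rw [n1]
  have n3 : ‖Complex.exp ((l * Complex.I) * ((T₀ + T : ℝ) : ℂ)) - Complex.exp ((l * Complex.I) * (T₀ : ℂ))‖ ≤ 2 := by
    refine (norm_sub_le _ _).trans ?_
    rw [n2, n2]
    norm_num
  rw [mul_one_div]
  gcongr

lemma mean {ι : Type} (s : Finset ι) (al : ι → ℂ) (la : ι → ℝ) (hal : ∀ v ∈ s, ‖al v‖ ≤ 1) (T₀ T : ℝ) (hT : 0 ≤ T) :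
    ∫ t in T₀..(T₀ + T), ‖∑ v ∈ s, al v * Complex.exp (t * (la v * Complex.I))‖ ^ 2 ≤
      ∑ v ∈ s, ∑ w ∈ s, K T₀ T (la v - la w) := by
  have h1 : ∀ t : ℝ, ((‖∑ v ∈ s, al v * Complex.exp (t * (la v * Complex.I))‖ ^ 2 : ℝ) : ℂ) =
      ∑ v ∈ s, ∑ w ∈ s, (al v * (starRingEnd ℂ) (al w)) *
        Complex.exp (t * (((la v - la w : ℝ) : ℂ) * Complex.I)) := by
    intro t
    rw [← Complex.normSq_eq_norm_sq, ← Complex.mul_conj, map_sum, Finset.sum_mul_sum]
    refine Finset.sum_congr rfl fun v _ => Finset.sum_congr rfl fun w _ => ?_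
    rw [map_mul, ← Complex.exp_conj, map_mul, map_mul, Complex.conj_ofReal, Complex.conj_ofReal, Complex.conj_I]
    have : al v * Complex.exp (t * (la v * Complex.I)) *
        ((starRingEnd ℂ) (al w) * Complex.exp (t * (la w * -Complex.I))) =
        (al v * (starRingEnd ℂ) (al w)) *
          (Complex.exp (t * (la v * Complex.I)) * Complex.exp (t * (la w * -Complex.I))) := by ring
    rw [this, ← Complex.exp_add]
    congr 2
    push_cast
    ring
  have h2 : ((∫ t in T₀..(T₀ + T), ‖∑ v ∈ s, al v * Complex.exp (t * (la v * Complex.I))‖ ^ 2 : ℝ) : ℂ) =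
      ∑ v ∈ s, ∑ w ∈ s, (al v * (starRingEnd ℂ) (al w)) *
        ∫ t in T₀..(T₀ + T), Complex.exp (t * (((la v - la w : ℝ) : ℂ) * Complex.I)) := by
    rw [← intervalIntegral.integral_ofReal]
    rw [intervalIntegral.integral_congr (g := fun t : ℝ => ∑ v ∈ s, ∑ w ∈ s, (al v * (starRingEnd ℂ) (al w)) *
        Complex.exp (t * (((la v - la w : ℝ) : ℂ) * Complex.I))) (fun t _ => h1 t)]
    rw [intervalIntegral.integral_finsetSum (fun v _ => by
      apply Continuous.intervalIntegrable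
      fun_prop)]
    refine Finset.sum_congr rfl fun v _ => ?_
    rw [intervalIntegral.integral_finsetSum (fun v _ => by
      apply Continuous.intervalIntegrable
      fun_prop)]
    refine Finset.sum_congr rfl fun w _ => ?_
    rw [intervalIntegral.integral_const_mul]
  have h3 : 0 ≤ ∫ t in T₀..(T₀ + T), ‖∑ v ∈ s, al v * Complex.exp (t * (la v * Complex.I))‖ ^ 2 :=
    intervalIntegral.integral_nonneg (by linarith) fun t _ => by positivity
  have h4 := congrArg norm h2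
  rw [Complex.norm_real, Real.norm_eq_abs, abs_of_nonneg h3] at h4
  rw [h4]
  refine (norm_sum_le _ _).trans (Finset.sum_le_sum fun v hv => ?_)
  refine (norm_sum_le _ _).trans (Finset.sum_le_sum fun w hw => ?_)
  rw [norm_mul, norm_mul, Complex.norm_conj]
  have hh : ‖al v‖ * ‖al w‖ ≤ 1 := mul_le_one₀ (hal v hv) (norm_nonneg _) (hal w hw)
  calc ‖al v‖ * ‖al w‖ * ‖∫ t in T₀..(T₀ + T), Complex.exp (t * (((la v - la w : ℝ) : ℂ) * Complex.I))‖
      ≤ 1 * ‖∫ t in T₀..(T₀ + T), Complex.exp (t * (((la v - la w : ℝ) : ℂ) * Complex.I))‖ := by gcongr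
    _ = K T₀ T (la v - la w) := by rw [one_mul]; rfl

end Pool.Agent.T2H17.MT
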